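import Pool.Agent.Helper20.EX3.Statements

/-!
# MP_2857a5_co : module PACK, distributing the labels over the windows
-/

set_option autoImplicit false

open Finset
open scoped Classical

namespace OT

/-- The number of transitions from `x` to `y` among the first `ℓ` steps. -/
def packCnt (β : ℕ → Bool) (x y : Bool) (ℓ : ℕ) : ℕ :=
  ∑ i ∈ range ℓ, if β i = x ∧ β (i + 1) = y then 1 else 0

/-- There is a bit sequence from `true` to `b` of length `ℓ` with given numbers of transitions. -/
def PackQ (b : Bool) (ℓ ft tf ff : ℕ) : Prop :=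
  ∃ β : ℕ → Bool, β 0 = true ∧ β ℓ = b ∧ packCnt β false true ℓ = ft ∧
    packCnt β true false ℓ = tf ∧ packCnt β false false ℓ = ff

theorem packQ_zero : PackQ true 0 0 0 0 :=
  ⟨fun _ => true, rfl, rfl, by simp [packCnt], by simp [packCnt], by simp [packCnt]⟩

theorem packQ_step {b : Bool} {ℓ ft tf ff : ℕ} (h : PackQ b ℓ ft tf ff) (b' : Bool) :
    PackQ b' (ℓ + 1) (ft + if b = false ∧ b' = true then 1 else 0)
      (tf + if b = true ∧ b' = false then 1 else 0)
      (ff + if b = false ∧ b' = false then 1 else 0) := by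
  obtain ⟨β, h0, hb, h1, h2, h3⟩ := h
  have key : ∀ x y : Bool, packCnt (fun i => if i ≤ ℓ then β i else b') x y (ℓ + 1) =
      packCnt β x y ℓ + if b = x ∧ b' = y then 1 else 0 := by
    intro x y
    unfold packCnt
    rw [sum_range_succ]
    congr 1
    · refine sum_congr rfl fun i hi => ?_
      have hi := mem_range.1 hi
      have h4 : i ≤ ℓ := hi.le
      have h5 : i + 1 ≤ ℓ := hi
      simp only [h4, h5, if_true]
    · have h5 : ¬ (ℓ + 1 ≤ ℓ) := by omega
      simp only [le_refl, if_true, h5, if_false, hb]
  refine ⟨fun i => if i ≤ ℓ then β i else b', ?_, ?_, ?_, ?_, ?_⟩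
  · simp [h0]
  · have h5 : ¬ (ℓ + 1 ≤ ℓ) := by omega
    simp [h5]
  · rw [key, h1]
  · rw [key, h2]
  · rw [key, h3]

theorem packQ_all {ℓ a c : ℕ} (ha : 1 ≤ a) (h : 2 * a + c ≤ ℓ) : PackQ true ℓ a a c := by
  -- one `false`
  have s1 : PackQ false 1 0 1 0 := by simpa using packQ_step packQ_zero false
  have s2 : ∀ c : ℕ, PackQ false (1 + c) 0 1 c := by
    intro c
    induction c with
    | zero => simpa using s1
    | succ c ih => simpa [add_assoc] using packQ_step ih false
  have s3 : PackQ true (c + 2) 1 1 c := by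
    have := packQ_step (s2 c) true
    simpa [add_comm, add_left_comm] using this
  have s4 : ∀ k : ℕ, PackQ true (c + 2 + 2 * k) (1 + k) (1 + k) c := by
    intro k
    induction k with
    | zero => simpa using s3
    | succ k ih =>
      have h1 := packQ_step ih false
      have h2 := packQ_step h1 true
      have e1 : c + 2 + 2 * k + 1 + 1 = c + 2 + 2 * (k + 1) := by ring
      have e2 : 1 + k + 1 = 1 + (k + 1) := by ring
      simpa [e1, e2] using h2
  have s5 : ∀ m k : ℕ, PackQ true (c + 2 + 2 * k + m) (1 + k) (1 + k) c := by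
    intro m k
    induction m with
    | zero => simpa using s4 k
    | succ m ih =>
      have h1 := packQ_step ih true
      simpa [add_assoc] using h1
  obtain ⟨k, rfl⟩ : ∃ k, a = 1 + k := ⟨a - 1, by omega⟩
  obtain ⟨m, rfl⟩ : ∃ m, ℓ = c + 2 + 2 * k + m := ⟨ℓ - (c + 2 + 2 * k), by omega⟩
  exact s5 m k

theorem pack_split (w a : ℕ) (hw : 0 < w) :
    ∑ j : Fin w, (a / w + if (j : ℕ) < a % w then 1 else 0) = a := by
  rw [sum_add_distrib, Fin.sum_univ_eq_sum_range (fun j => if j < a % w then 1 else 0) w]
  have h1 : ∑ j ∈ range w, (if j < a % w then 1 else 0) = a % w := by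
    rw [← sum_filter]
    have : (range w).filter (fun j => j < a % w) = range (a % w) := by
      ext j
      have := Nat.mod_lt a hw
      simp only [mem_filter, mem_range]
      omega
    rw [this]
    simp
  rw [h1]
  simp only [sum_const, card_univ, Fintype.card_fin, smul_eq_mul]
  exact Nat.div_add_mod a w

theorem x3_pack : StPack := by
  intro ℓ w a c hwa h
  rcases Nat.eq_zero_or_pos w with rfl | hw
  · have ha : a = 0 := by omega
    have hc : c = 0 := by omega
    subst ha hc
    exact ⟨fun _ _ => true, fun j => j.elim0, fun j => j.elim0, by simp, by simp, by simp⟩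
  · have hq : ∀ j : Fin w, PackQ true ℓ (a / w + if (j : ℕ) < a % w then 1 else 0)
        (a / w + if (j : ℕ) < a % w then 1 else 0) (c / w + if (j : ℕ) < c % w then 1 else 0) := by
      intro j
      refine packQ_all ?_ ?_
      · have : 1 ≤ a / w := (Nat.one_le_div_iff hw).2 hwa
        omega
      · have h1 : a / w * w ≤ a := Nat.div_mul_le_self a w
        have h2 : c / w * w ≤ c := Nat.div_mul_le_self c w
        have h3 : (2 * (a / w) + c / w + 4) * w ≤ ℓ * w := by nlinarith
        have h4 := Nat.le_of_mul_le_mul_right h3 hw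
        split_ifs <;> omega
    choose β h0 hl h1 h2 h3 using hq
    have key : ∀ x y : Bool,
        (univ.filter fun q : Fin w × Fin ℓ => β q.1 q.2 = x ∧ β q.1 ((q.2 : ℕ) + 1) = y).card
          = ∑ j, packCnt (β j) x y ℓ := by
      intro x y
      rw [card_filter, Fintype.sum_prod_type]
      refine sum_congr rfl fun j _ => ?_
      rw [packCnt, ← Fin.sum_univ_eq_sum_range
        (fun i => if β j i = x ∧ β j (i + 1) = y then 1 else 0) ℓ]
    refine ⟨β, h0, hl, ?_, ?_, ?_⟩
    · rw [key]
      simp only [h1]
      exact pack_split w a hw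
    · rw [key]
      simp only [h2]
      exact pack_split w a hw
    · rw [key]
      simp only [h3]
      exact pack_split w c hw

end OT
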